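import Pool.Agent.Helper55.NK.Defs
set_option autoImplicit false

/-!
MP_9385b8_an: Baire trees.
-/

namespace Pool.Agent.Helper32.BT

/-- Baire trees: uncountable trees `T` of height at most `ω₁` in which every element has `#T` immediate
successors and countable intersections of dense open sets are dense. -/
structure BaireTree (T : Type) [PartialOrder T] : Prop where
  unc : Cardinal.aleph 1 ≤ Cardinal.mk T
  wf : WellFounded ((· < ·) : T → T → Prop)
  chain : ∀ t a b : T, a ≤ t → b ≤ t → a ≤ b ∨ b ≤ a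
  below : ∀ t : T, {s | s ≤ t}.Countable
  succ : ∀ t : T, Cardinal.mk T ≤ Cardinal.mk {s | t ⋖ s}
  baire : ∀ D : ℕ → Set T, (∀ k, IsUpperSet (D k)) → (∀ k t, ∃ s ∈ D k, t ≤ s) →
    ∀ t, ∃ s, t ≤ s ∧ ∀ k, s ∈ D k

end Pool.Agent.Helper32.BT
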