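import Pool.Agent.Helper32.BT.Prop
import Pool.Agent.Helper55.NK.Card
set_option autoImplicit false

/-! Baire trees give rich groups of functions. -/

namespace Pool.Agent.Helper32.BT

open Pool.Agent.Helper55.NK

theorem bd_closure {Ω I : Type} (g : I → Ω → ℝ) (hg : ∀ i v, |g i v| ≤ 1) :
    ∀ u ∈ AddSubgroup.closure (Set.range g), ∃ C : ℝ, ∀ v, |u v| ≤ C := by
  intro u hu
  induction hu using AddSubgroup.closure_induction with
  | mem y hy =>
    obtain ⟨i, rfl⟩ := hy
    exact ⟨1, hg i⟩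
  | zero => exact ⟨0, fun v => by simp only [Pi.zero_apply, abs_zero, le_refl]⟩
  | add y z _ _ h1 h2 =>
    obtain ⟨C, hC⟩ := h1
    obtain ⟨C2, hC2⟩ := h2
    exact ⟨C + C2, fun v => (abs_add_le _ _).trans (add_le_add (hC v) (hC2 v))⟩
  | neg y _ h1 =>
    obtain ⟨C, hC⟩ := h1
    exact ⟨C, fun v => by rw [Pi.neg_apply, abs_neg]; exact hC v⟩

theorem supp_closure {Ω I : Type} (g : I → Ω → ℝ) (hg : ∀ i, (supp (g i)).Countable) :
    ∀ u ∈ AddSubgroup.closure (Set.range g), (supp u).Countable := by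
  intro u hu
  induction hu using AddSubgroup.closure_induction with
  | mem y hy =>
    obtain ⟨i, rfl⟩ := hy
    exact hg i
  | zero => exact supp_zero
  | add y z _ _ h1 h2 => exact supp_add _ _ h1 h2
  | neg y _ h1 => exact supp_neg _ h1

theorem word_closure {Ω T : Type} [LinearOrder Ω] (y : T → Ω → ℝ) :
    ∀ u ∈ AddSubgroup.closure (Set.range (gv y)), ∃ w : (T ⊕ Ω ⊕ Ω) →₀ ℤ, wv y w = u := by
  classical
  intro u hu
  induction hu using AddSubgroup.closure_induction with
  | mem z hz =>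
    obtain ⟨i, rfl⟩ := hz
    refine ⟨Finsupp.single i 1, ?_⟩
    unfold wv
    rw [Finsupp.sum_single_index (by rw [zero_smul]), one_smul]
  | zero => exact ⟨0, by unfold wv; rw [Finsupp.sum_zero_index]⟩
  | add a b _ _ h1 h2 =>
    obtain ⟨w1, rfl⟩ := h1
    obtain ⟨w2, rfl⟩ := h2
    refine ⟨w1 + w2, ?_⟩
    unfold wv
    exact Finsupp.sum_add_index' (h := fun i (n : ℤ) => n • gv y i) (fun i => zero_smul ℤ (gv y i))
      (fun i m n => add_smul m n (gv y i))
  | neg a _ h1 =>
    obtain ⟨w1, rfl⟩ := h1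
    refine ⟨-w1, ?_⟩
    unfold wv
    rw [Finsupp.sum_neg_index (h := fun i (n : ℤ) => n • gv y i) (fun i => zero_smul ℤ (gv y i))]
    simp only [neg_smul]
    rw [Finsupp.sum, Finsupp.sum, Finset.sum_neg_distrib]

theorem wv_congr {Ω T : Type} [LinearOrder Ω] (y z : T → Ω → ℝ) (w : (T ⊕ Ω ⊕ Ω) →₀ ℤ)
    (h : ∀ a : T, Sum.inl a ∈ w.support → y a = z a) : wv y w = wv z w := by
  unfold wv
  refine Finsupp.sum_congr ?_
  intro i hi
  rcases i with a | v | v
  · show w _ • y a = w _ • z a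
    rw [h a hi]
  · rfl
  · rfl

theorem exists_rich_of_tree {Ω : Type} [LinearOrder Ω] (hΩ : IsOmega1 Ω) (T : Type) [PartialOrder T]
    (hT : BaireTree T) :
    ∃ Y : AddSubgroup (Ω → ℝ), Rich Ω Y ∧ Cardinal.mk Y ≤ Cardinal.mk T := by
  classical
  obtain ⟨Λ, _, hΛ⟩ := exists_stage hT
  obtain ⟨σ, hmono, hσ⟩ := exists_sigma hT hΛ
  obtain ⟨r, hr⟩ := exists_req hΩ hT hΛ σ hσ
  obtain ⟨y, h1, h2⟩ := exists_y (Ω := Ω) hT hΛ σ hmono r
  have hP := props hΩ hT hΛ σ hmono r y (by convert h1) h2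
  have hsupp : ∀ t, (supp (y t)).Countable := fun t => (hP t).2.2
  -- a step
  have hstep : ∀ (t : T) (w : (T ⊕ Ω ⊕ Ω) →₀ ℤ), (∀ v, |wv y w v| ≤ 1) →
      (∀ v, wv y w v ≠ 0 → y t v = 0) → ∃ s, t ≤ s ∧ y s = y t + wv y w := by
    intro t w hb hd
    obtain ⟨s, hts, hsw, hsσ⟩ := hr t w
    refine ⟨s, hts.le, ?_⟩
    have h3 := h1 t s hts
    have h4 : wv (fun a => if σ a < σ s then y a else 0) (r s) = wv y w := by
      rw [hsw]
      refine wv_congr _ _ w ?_
      intro a ha
      simp only [hsσ a ha, if_true]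
    rw [h4, if_pos ⟨hb, hd⟩] at h3
    exact h3
  refine ⟨AddSubgroup.closure (Set.range (gv y)), ⟨?_, ?_, ?_, ?_⟩, ?_⟩
  · intro u hu
    have h3 := supp_closure (gv y) (supp_gv hΩ y hsupp) u hu
    obtain ⟨b, hb⟩ := hΩ.bdd _ h3
    exact ⟨b, fun v hv => hb v hv⟩
  · refine bd_closure (gv y) ?_
    intro i v
    rcases i with s | w | w
    · exact (hP s).1 v
    · show |(if v = w then (1 : ℝ) else 0)| ≤ 1
      split_ifs
      · rw [abs_one]
      · rw [abs_zero]; exact zero_le_one
    · show |(if v < w then (1 : ℝ) else 0)| ≤ 1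
      split_ifs
      · rw [abs_one]
      · rw [abs_zero]; exact zero_le_one
  · intro v
    exact AddSubgroup.subset_closure ⟨Sum.inr (Sum.inl v), rfl⟩
  · intro G hG hcof α
    -- a minimal element
    have hTne : (Set.univ : Set T).Nonempty := by
      have : Nonempty T := by
        rw [← Cardinal.mk_ne_zero_iff]
        intro h0
        have h5 := hT.unc
        rw [h0] at h5
        exact absurd (Cardinal.aleph0_pos.trans_le (Cardinal.aleph0_le_aleph 1)) (not_lt.mpr h5)
      exact ⟨this.some, trivial⟩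
    set tm := hT.wf.min Set.univ hTne with htm
    have hmin : ∀ s, ¬ s < tm := fun s => hT.wf.not_lt_min Set.univ trivial
    have hytm : y tm = 0 := by
      funext v
      have h3 : ¬ ∃ a, a ⋖ tm := fun ⟨a, ha⟩ => hmin a ha.lt
      rcases h2 tm h3 v with ⟨s, hs, _, _⟩ | ⟨_, h0⟩
      · exact absurd hs (hmin s)
      · exact h0
    have hi2 : wv y (Finsupp.single (Sum.inr (Sum.inr α)) 1) =
        fun v => if v < α then (1 : ℝ) else 0 := by
      unfold wv
      rw [Finsupp.sum_single_index (by rw [zero_smul]), one_smul]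
      rfl
    obtain ⟨t0, _, ht0⟩ := hstep tm (Finsupp.single (Sum.inr (Sum.inr α)) 1)
      (by
        intro v
        rw [hi2]
        show |(if v < α then (1 : ℝ) else 0)| ≤ 1
        split_ifs
        · rw [abs_one]
        · rw [abs_zero]; exact zero_le_one)
      (by
        intro v _
        rw [hytm]
        rfl)
    rw [hytm, hi2, zero_add] at ht0
    obtain ⟨t, ht0t, ht⟩ := hT.baire
      (fun k => {t | ∃ g ∈ G k, (∀ v, |g v| ≤ 1) ∧ ∀ v, g v ≠ 0 → α ≤ v ∧ y t v = g v})
      (by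
        intro k a b hab ha
        obtain ⟨g, hgG, hg1, hg2⟩ := ha
        refine ⟨g, hgG, hg1, fun v hv => ⟨(hg2 v hv).1, ?_⟩⟩
        have h5 := (hg2 v hv).2
        rw [(hP b).2.1 a hab v (by rw [h5]; exact hv), h5])
      (by
        intro k t
        obtain ⟨b, hb⟩ := hΩ.bdd _ (hsupp t)
        obtain ⟨g, hgG, hg1, hg2⟩ := hcof k (max b α)
        obtain ⟨w, rfl⟩ := word_closure y g (hG k g hgG)
        obtain ⟨s, hts, hs⟩ := hstep t w hg1 (by
          intro v hv
          by_contra hne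
          have h6 := hb v hne
          have h7 := (le_max_left b α).trans (hg2 v hv)
          exact absurd h6 (not_lt.mpr h7))
        refine ⟨s, ⟨wv y w, hgG, hg1, ?_⟩, hts⟩
        intro v hv
        refine ⟨(le_max_right b α).trans (hg2 v hv), ?_⟩
        have h8 : y t v = 0 := by
          by_contra hne
          have h6 := hb v hne
          have h7 := (le_max_left b α).trans (hg2 v hv)
          exact absurd h6 (not_lt.mpr h7)
        rw [hs, Pi.add_apply, h8, zero_add]) t0
    have hlow : ∀ v, v < α → y t v = 1 := by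
      intro v hv
      have h9 : y t0 v = 1 := by rw [ht0]; exact if_pos hv
      rw [(hP t).2.1 t0 ht0t v (by rw [h9]; exact one_ne_zero), h9]
    have hval : ∀ v, (y t - y t0) v = if v < α then 0 else y t v := by
      intro v
      rw [Pi.sub_apply, ht0]
      show y t v - (if v < α then (1 : ℝ) else 0) = _
      by_cases h : v < α
      · rw [if_pos h, if_pos h, hlow v h, sub_self]
      · rw [if_neg h, if_neg h, sub_zero]
    refine ⟨y t - y t0, ?_, ?_, ?_, ?_⟩
    · exact AddSubgroup.sub_mem _ (AddSubgroup.subset_closure ⟨Sum.inl t, rfl⟩)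
        (AddSubgroup.subset_closure ⟨Sum.inl t0, rfl⟩)
    · intro v
      rw [hval v]
      split_ifs
      · rw [abs_zero]; exact zero_le_one
      · exact (hP t).1 v
    · intro v hv
      rw [hval v] at hv
      by_contra hlt
      rw [if_pos (not_le.mp hlt)] at hv
      exact hv rfl
    · intro k
      obtain ⟨g, hgG, hg1, hg2⟩ := ht k
      refine ⟨g, hgG, hg1, ?_⟩
      intro v hv
      obtain ⟨h10, h11⟩ := hg2 v hv
      rw [hval v, if_neg (not_lt.mpr h10), h11]
  · exact mk_closure_le (Cardinal.mk T) ((Cardinal.aleph0_le_aleph 1).trans hT.unc)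
      (mk_index_le hΩ hT) (gv y)

end Pool.Agent.Helper32.BT
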