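import Pool.Agent.Helper32.BT.Defs
set_option autoImplicit false

/-! Baire partial orders of cardinality `ℵ₁` which are nowhere ccc contain Baire trees. -/

namespace Pool.Agent.Helper32.BT

open Pool.Agent.Helper55.NK Cardinal

/-- `p` and `q` have no common extension (`p ≤ q` means that `q` extends `p`). -/
def Inc {P : Type} [Preorder P] (p q : P) : Prop := ∀ r, p ≤ r → ¬ q ≤ r

/-- Baire partial orders of cardinality `ℵ₁`, nowhere ccc: countable intersections of dense open (upward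
closed) sets are dense, and every element has uncountably many pairwise incompatible extensions. -/
structure BaireOrder (P : Type) [Preorder P] : Prop where
  card : Cardinal.mk P = Cardinal.aleph 1
  anti : ∀ p : P, ∃ A : Set P, ¬ A.Countable ∧ (∀ a ∈ A, p ≤ a) ∧ ∀ a ∈ A, ∀ b ∈ A, a ≠ b → Inc a b
  baire : ∀ D : ℕ → Set P, (∀ k, IsUpperSet (D k)) → (∀ k p, ∃ q ∈ D k, p ≤ q) →
    ∀ p, ∃ q, p ≤ q ∧ ∀ k, q ∈ D k

theorem Inc.mono {P : Type} [Preorder P] {p q r : P} (h : Inc p q) (hqr : q ≤ r) : Inc p r :=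
  fun s hs hrs => h s hs (hqr.trans hrs)

/-- Antichains. -/
def Anti {P : Type} [Preorder P] (A : Set P) : Prop := ∀ a ∈ A, ∀ b ∈ A, a ≠ b → Inc a b

/-- Predense sets. -/
def Pre {P : Type} [Preorder P] (A : Set P) : Prop := ∀ q, ∃ a ∈ A, ∃ r, a ≤ r ∧ q ≤ r

theorem Anti.eq {P : Type} [Preorder P] {A : Set P} (hA : Anti A) {a b r : P} (ha : a ∈ A) (hb : b ∈ A)
    (har : a ≤ r) (hbr : b ≤ r) : a = b := by
  by_contra hne
  exact hA a ha b hb hne r har hbr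

theorem exists_max {P : Type} [Preorder P] (E A0 : Set P) (h1 : A0 ⊆ E) (h2 : Anti A0) :
    ∃ A, A0 ⊆ A ∧ A ⊆ E ∧ Anti A ∧ ∀ q ∈ E, ∃ a ∈ A, ∃ r, a ≤ r ∧ q ≤ r := by
  obtain ⟨A, hA0, hA⟩ := zorn_subset_nonempty {A : Set P | A ⊆ E ∧ Anti A} (by
    intro c hc hch _
    refine ⟨⋃₀ c, ⟨?_, ?_⟩, fun s hs => Set.subset_sUnion_of_mem hs⟩
    · exact Set.sUnion_subset fun s hs => (hc hs).1
    · intro a ha b hb hne
      obtain ⟨s, hs, has⟩ := ha
      obtain ⟨s2, hs2, hbs⟩ := hb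
      rcases hch.total hs hs2 with h | h
      · exact (hc hs2).2 a (h has) b hbs hne
      · exact (hc hs).2 a has b (h hbs) hne) A0 ⟨h1, h2⟩
  refine ⟨A, hA0, hA.prop.1, hA.prop.2, ?_⟩
  intro q hq
  by_contra hcon
  push Not at hcon
  have hqA : q ∉ A := fun h => hcon q h q le_rfl le_rfl
  have hins : insert q A ∈ {A : Set P | A ⊆ E ∧ Anti A} := by
    refine ⟨Set.insert_subset hq hA.prop.1, ?_⟩
    intro a ha b hb hne
    rcases ha with rfl | ha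
    · rcases hb with rfl | hb
      · exact absurd rfl hne
      · exact fun r har hbr => hcon b hb r hbr har
    · rcases hb with rfl | hb
      · exact fun r har hbr => hcon a ha r har hbr
      · exact hA.prop.2 a ha b hb hne
  exact hqA (hA.le_of_ge hins (Set.subset_insert q A) (Set.mem_insert q A))

/-- The dense open sets attached to an antichain `L`. -/
def OO {P : Type} [Preorder P] (AP : P → Set P) (x : P) (L : Set P) : Set P :=
  {q | (∃ p ∈ L, p ≤ q) ∧ (x ≤ q ∨ Inc x q) ∧ ∀ p ∈ L, p ≤ q → ∃ a ∈ AP p, a ≤ q}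

theorem OO_upper {P : Type} [Preorder P] (AP : P → Set P) (x : P) (L : Set P) (hL : Anti L) :
    IsUpperSet (OO AP x L) := by
  rintro q r hqr ⟨⟨p, hp, hpq⟩, h2, h3⟩
  refine ⟨⟨p, hp, hpq.trans hqr⟩, ?_, ?_⟩
  · rcases h2 with h | h
    · exact Or.inl (h.trans hqr)
    · exact Or.inr (h.mono hqr)
  · intro p' hp' hp'r
    have h4 : p = p' := hL.eq hp hp' (hpq.trans hqr) hp'r
    obtain ⟨a, ha, haq⟩ := h3 p hp hpq
    exact ⟨a, h4 ▸ ha, haq.trans hqr⟩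

theorem OO_dense {P : Type} [Preorder P] (AP : P → Set P)
    (hAP : ∀ p, ∀ q, p ≤ q → ∃ a ∈ AP p, ∃ r, a ≤ r ∧ q ≤ r) (x : P) (L : Set P) (hL : Anti L)
    (hL2 : Pre L) (p : P) : ∃ q ∈ OO AP x L, p ≤ q := by
  obtain ⟨a, ha, r, har, hpr⟩ := hL2 p
  have h1 : ∃ r', r ≤ r' ∧ (x ≤ r' ∨ Inc x r') := by
    by_cases h : ∃ r', r ≤ r' ∧ x ≤ r'
    · obtain ⟨r', h1, h2⟩ := h
      exact ⟨r', h1, Or.inl h2⟩
    · refine ⟨r, le_rfl, Or.inr fun s hs hrs => h ⟨s, hrs, hs⟩⟩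
  obtain ⟨r', hrr', h2⟩ := h1
  obtain ⟨b, hb, s, hbs, hr's⟩ := hAP a r' (har.trans hrr')
  refine ⟨s, ⟨⟨a, ha, (har.trans hrr').trans hr's⟩, ?_, ?_⟩, (hpr.trans hrr').trans hr's⟩
  · rcases h2 with h | h
    · exact Or.inl (h.trans hr's)
    · exact Or.inr (h.mono hr's)
  · intro p' hp' hp's
    have h4 : a = p' := hL.eq ha hp' ((har.trans hrr').trans hr's) hp's
    exact ⟨b, h4 ▸ hb, hbs⟩

theorem baire_countable {Ω P : Type} [Preorder P] (hP : BaireOrder P) (A : Set Ω) (hA : A.Countable)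
    (D : Ω → Set P) (h1 : ∀ β ∈ A, IsUpperSet (D β)) (h2 : ∀ β ∈ A, ∀ p, ∃ q ∈ D β, p ≤ q) (p : P) :
    ∃ q, p ≤ q ∧ ∀ β ∈ A, q ∈ D β := by
  rcases A.eq_empty_or_nonempty with h | h
  · exact ⟨p, le_rfl, fun β hβ => absurd hβ (by rw [h]; exact Set.notMem_empty β)⟩
  · obtain ⟨g, hg⟩ := hA.exists_eq_range h
    obtain ⟨q, hpq, hq⟩ := hP.baire (fun n => D (g n))
      (fun n => h1 _ (by rw [hg]; exact ⟨n, rfl⟩)) (fun n => h2 _ (by rw [hg]; exact ⟨n, rfl⟩)) p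
    refine ⟨q, hpq, fun β hβ => ?_⟩
    rw [hg] at hβ
    obtain ⟨n, rfl⟩ := hβ
    exact hq n

/-- The levels of the tree. -/
theorem exists_levels {Ω P : Type} [LinearOrder Ω] (hΩ : IsOmega1 Ω) [Preorder P] (hP : BaireOrder P)
    (AP : P → Set P) (hAP : ∀ p, ∀ q, p ≤ q → ∃ a ∈ AP p, ∃ r, a ≤ r ∧ q ≤ r) (e : Ω → P) :
    ∃ L : Ω → Set P, (∀ α, Anti (L α)) ∧ (∀ α, Pre (L α)) ∧
      ∀ α, ∀ q ∈ L α, ∀ β < α, q ∈ OO AP (e β) (L β) := by
  have hMA : ∀ E : Set P, ∃ A, A ⊆ E ∧ Anti A ∧ ∀ q ∈ E, ∃ a ∈ A, ∃ r, a ≤ r ∧ q ≤ r := by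
    intro E
    obtain ⟨A, -, h⟩ := exists_max E ∅ (Set.empty_subset E) (fun a ha => absurd ha (Set.notMem_empty a))
    exact ⟨A, h⟩
  choose MA hMA1 hMA2 hMA3 using hMA
  let L : Ω → Set P := hΩ.wf.fix fun α ih => MA {q | ∀ β (h : β < α), q ∈ OO AP (e β) (ih β h)}
  have hL : ∀ α, L α = MA {q | ∀ β < α, q ∈ OO AP (e β) (L β)} := by
    intro α
    show hΩ.wf.fix _ α = _
    rw [WellFounded.fix_eq]
  have hboth : ∀ α, Anti (L α) ∧ Pre (L α) := by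
    intro α
    induction α using hΩ.wf.induction with
    | _ α ih =>
    constructor
    · rw [hL α]
      exact hMA2 _
    · intro q
      obtain ⟨q', hqq', hq'⟩ := baire_countable hP (Set.Iio α) (hΩ.iio α)
        (fun β => OO AP (e β) (L β)) (fun β hβ => OO_upper AP (e β) (L β) (ih β hβ).1)
        (fun β hβ => OO_dense AP hAP (e β) (L β) (ih β hβ).1 (ih β hβ).2) q
      rw [hL α]
      obtain ⟨a, ha, r, har, hq'r⟩ := hMA3 {q | ∀ β < α, q ∈ OO AP (e β) (L β)} q'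
        (fun β hβ => hq' β hβ)
      exact ⟨a, ha, r, har, hqq'.trans hq'r⟩
  refine ⟨L, fun α => (hboth α).1, fun α => (hboth α).2, ?_⟩
  intro α q hq β hβ
  rw [hL α] at hq
  exact hMA1 _ hq β hβ

/-- The tree of the levels. -/
def Tr {Ω P : Type} (L : Ω → Set P) : Type := {x : Ω × P // x.2 ∈ L x.1}

instance {Ω P : Type} [LinearOrder Ω] [Preorder P] (L : Ω → Set P) : PartialOrder (Tr L) where
  le x y := x = y ∨ (x.1.1 < y.1.1 ∧ x.1.2 ≤ y.1.2)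
  le_refl x := Or.inl rfl
  le_trans x y z hxy hyz := by
    rcases hxy with rfl | h
    · exact hyz
    · rcases hyz with rfl | h2
      · exact Or.inr h
      · exact Or.inr ⟨h.1.trans h2.1, h.2.trans h2.2⟩
  le_antisymm x y hxy hyx := by
    rcases hxy with h | h
    · exact h
    · rcases hyx with h2 | h2
      · exact h2.symm
      · exact absurd (h.1.trans h2.1) (lt_irrefl _)

theorem Tr_le {Ω P : Type} [LinearOrder Ω] [Preorder P] (L : Ω → Set P) (x y : Tr L) :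
    x ≤ y ↔ x = y ∨ (x.1.1 < y.1.1 ∧ x.1.2 ≤ y.1.2) := Iff.rfl

theorem Tr_lt {Ω P : Type} [LinearOrder Ω] [Preorder P] (L : Ω → Set P) (x y : Tr L) :
    x < y ↔ (x.1.1 < y.1.1 ∧ x.1.2 ≤ y.1.2) := by
  rw [lt_iff_le_and_ne, Tr_le]
  constructor
  · rintro ⟨h | h, hne⟩
    · exact absurd h hne
    · exact h
  · intro h
    refine ⟨Or.inr h, ?_⟩
    rintro rfl
    exact absurd h.1 (lt_irrefl _)

theorem Tr_le2 {Ω P : Type} [LinearOrder Ω] [Preorder P] (L : Ω → Set P) {x y : Tr L} (h : x ≤ y) :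
    x.1.1 ≤ y.1.1 ∧ x.1.2 ≤ y.1.2 := by
  rcases h with rfl | h
  · exact ⟨le_rfl, le_rfl⟩
  · exact ⟨h.1.le, h.2⟩

theorem exists_tree {P : Type} [Preorder P] (hP : BaireOrder P) {Ω : Type} [LinearOrder Ω]
    (hΩ : IsOmega1 Ω) : ∃ (T : Type) (_ : PartialOrder T), BaireTree T ∧ Cardinal.mk T = Cardinal.aleph 1 := by
  classical
  -- maximal antichains above the elements
  have hAPex : ∀ p : P, ∃ A : Set P, ¬ A.Countable ∧ (∀ a ∈ A, p ≤ a) ∧ Anti A ∧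
      ∀ q, p ≤ q → ∃ a ∈ A, ∃ r, a ≤ r ∧ q ≤ r := by
    intro p
    obtain ⟨A0, h1, h2, h3⟩ := hP.anti p
    obtain ⟨A, hA0, hA1, hA2, hA3⟩ := exists_max {q | p ≤ q} A0 (fun a ha => h2 a ha) h3
    exact ⟨A, fun hc => h1 (hc.mono hA0), fun a ha => hA1 ha, hA2, fun q hq => hA3 q hq⟩
  choose AP hAP1 hAP2 hAP3 hAP4 using hAPex
  -- an enumeration
  have hPne : Nonempty P := by
    rw [← Cardinal.mk_ne_zero_iff, hP.card]
    exact (Cardinal.aleph0_pos.trans_le (Cardinal.aleph0_le_aleph 1)).ne'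
  have hes : ∃ e : Ω → P, Function.Surjective e := by
    have h1 : Cardinal.mk P ≤ Cardinal.mk Ω := by rw [hP.card, hΩ.card]
    obtain ⟨f⟩ := Cardinal.le_def _ _ |>.mp h1
    exact ⟨Function.invFun f, Function.invFun_surjective f.injective⟩
  obtain ⟨e, he⟩ := hes
  obtain ⟨L, hL1, hL2, hL3⟩ := exists_levels hΩ hP AP hAP4 e
  have hΩu : ¬ Countable Ω := by
    rw [← Cardinal.mk_le_aleph0_iff, hΩ.card, not_le]
    exact Cardinal.aleph0_lt_aleph_one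
  -- density of the tree
  have hdens : ∀ (q : P) (γ : Ω), ∃ x : Tr L, γ < x.1.1 ∧ q ≤ x.1.2 := by
    intro q γ
    obtain ⟨β, rfl⟩ := he q
    obtain ⟨α, hα⟩ := hΩ.bdd {β, γ} (Set.toFinite _).countable
    obtain ⟨l, hl, r, hlr, hqr⟩ := hL2 α (e β)
    have hβα : β < α := hα β (Set.mem_insert _ _)
    have hγα : γ < α := hα γ (Set.mem_insert_of_mem _ rfl)
    rcases (hL3 α l hl β hβα).2.1 with h | h
    · exact ⟨⟨(α, l), hl⟩, hγα, h⟩
    · exact absurd hlr (h r hqr)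
  have huniq : ∀ x y t : Tr L, x ≤ t → y ≤ t → x.1.1 = y.1.1 → x = y := by
    intro x y t hx hy hxy
    have h1 : x.1.2 = y.1.2 := by
      refine (hL1 y.1.1).eq ?_ y.2 (Tr_le2 L hx).2 (Tr_le2 L hy).2
      have := x.2
      rw [hxy] at this
      exact this
    exact Subtype.ext (Prod.ext hxy h1)
  have hchain : ∀ x y t : Tr L, x ≤ t → y ≤ t → x.1.1 < y.1.1 → x ≤ y := by
    intro x y t hx hy hxy
    obtain ⟨p, hp, hpy⟩ := (hL3 y.1.1 y.1.2 y.2 x.1.1 hxy).1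
    have h1 : p = x.1.2 := (hL1 x.1.1).eq hp x.2 (hpy.trans (Tr_le2 L hy).2) (Tr_le2 L hx).2
    exact Or.inr ⟨hxy, h1 ▸ hpy⟩
  have hmk2 : Cardinal.mk (Tr L) ≤ Cardinal.aleph 1 := by
    have h1 : Cardinal.mk (Tr L) ≤ Cardinal.mk (Ω × P) :=
      Cardinal.mk_le_of_injective (f := fun x : Tr L => x.1) Subtype.val_injective
    refine h1.trans ?_
    rw [Cardinal.mk_prod]
    simp only [Cardinal.lift_id]
    exact Cardinal.mul_le_of_le (Cardinal.aleph0_le_aleph 1) hΩ.card.le hP.card.le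
  have hmk1 : Cardinal.aleph 1 ≤ Cardinal.mk (Tr L) := by
    rw [← hΩ.card]
    have h1 : ∀ α : Ω, ∃ x : Tr L, x.1.1 = α := by
      intro α
      obtain ⟨l, hl, -⟩ := hL2 α hPne.some
      exact ⟨⟨(α, l), hl⟩, rfl⟩
    exact Cardinal.mk_le_of_surjective (f := fun x : Tr L => x.1.1) h1
  refine ⟨Tr L, inferInstance, ⟨hmk1, ?_, ?_, ?_, ?_, ?_⟩, le_antisymm hmk2 hmk1⟩
  · refine Subrelation.wf ?_ (InvImage.wf (fun x : Tr L => x.1.1) hΩ.wf)
    intro x y hxy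
    exact ((Tr_lt L x y).mp hxy).1
  · intro t x y hx hy
    rcases lt_trichotomy x.1.1 y.1.1 with h | h | h
    · exact Or.inl (hchain x y t hx hy h)
    · exact Or.inl (huniq x y t hx hy h).le
    · exact Or.inr (hchain y x t hy hx h)
  · intro t
    have h1 : Set.InjOn (fun x : Tr L => x.1.1) {s | s ≤ t} := by
      intro x hx y hy hxy
      exact huniq x y t hx hy hxy
    have h2 : Set.MapsTo (fun x : Tr L => x.1.1) {s | s ≤ t} (Set.Iic t.1.1) :=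
      fun x hx => (Tr_le2 L hx).1
    have h3 : (Set.Iic t.1.1).Countable := by
      rw [← Set.Iio_insert]
      exact (hΩ.iio _).insert _
    exact h2.countable_of_injOn h1 h3
  · intro t
    refine hmk2.trans ?_
    rw [← Cardinal.succ_aleph0]
    refine Order.succ_le_of_lt ?_
    rw [← not_le, Cardinal.mk_le_aleph0_iff]
    intro hc
    -- the next level
    have hne : {γ : Ω | t.1.1 < γ}.Nonempty := by
      obtain ⟨b, hb⟩ := hΩ.bdd {t.1.1} (Set.countable_singleton _)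
      exact ⟨b, hb _ rfl⟩
    set α := hΩ.wf.min _ hne with hα
    have hαt : t.1.1 < α := hΩ.wf.min_mem _ hne
    have hαmin : ∀ γ, t.1.1 < γ → ¬ γ < α := fun γ hγ => hΩ.wf.not_lt_min {γ : Ω | t.1.1 < γ} hγ
    have h1 : ∀ a ∈ AP t.1.2, ∃ x : Tr L, t ⋖ x ∧ a ≤ x.1.2 := by
      intro a ha
      obtain ⟨l, hl, r, hlr, har⟩ := hL2 α a
      obtain ⟨⟨p, hp, hpl⟩, -, h3⟩ := hL3 α l hl t.1.1 hαt
      have h4 : p = t.1.2 := (hL1 t.1.1).eq hp t.2 (hpl.trans hlr) ((hAP2 _ a ha).trans har)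
      obtain ⟨b, hb, hbl⟩ := h3 p hp hpl
      rw [h4] at hb hpl
      have h5 : b = a := (hAP3 t.1.2).eq hb ha (hbl.trans hlr) har
      refine ⟨⟨(α, l), hl⟩, ⟨(Tr_lt L _ _).mpr ⟨hαt, hpl⟩, ?_⟩, h5 ▸ hbl⟩
      intro c hc1 hc2
      exact hαmin c.1.1 ((Tr_lt L _ _).mp hc1).1 ((Tr_lt L _ _).mp hc2).1
    choose x hx1 hx2 using h1
    apply hAP1 t.1.2
    have h6 : Function.Injective (fun a : AP t.1.2 => (⟨x a.1 a.2, hx1 a.1 a.2⟩ : {s | t ⋖ s})) := by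
      intro a b hab
      have h7 : x a.1 a.2 = x b.1 b.2 := congrArg Subtype.val hab
      have h8 : (b : P) ≤ (x a.1 a.2).1.2 := h7 ▸ hx2 b.1 b.2
      exact Subtype.ext ((hAP3 t.1.2).eq a.2 b.2 (hx2 a.1 a.2) h8)
    have : Countable (AP t.1.2) := h6.countable
    exact Set.to_countable _
  · intro D hD1 hD2 t
    obtain ⟨q, htq, hq⟩ := hP.baire (fun k => {q | ∃ x ∈ D k, x.1.2 ≤ q})
      (by
        rintro k a b hab ⟨x, hx, hxa⟩
        exact ⟨x, hx, hxa.trans hab⟩)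
      (by
        intro k p
        obtain ⟨x, -, hx⟩ := hdens p t.1.1
        obtain ⟨y, hy, hxy⟩ := hD2 k x
        exact ⟨y.1.2, ⟨y, hy, le_rfl⟩, hx.trans (Tr_le2 L hxy).2⟩) t.1.2
    choose y hy1 hy2 using hq
    obtain ⟨γ, hγ⟩ := hΩ.bdd (insert t.1.1 (Set.range fun k => (y k).1.1))
      ((Set.countable_range _).insert _)
    obtain ⟨x, hx1, hx2⟩ := hdens q γ
    refine ⟨x, Or.inr ⟨(hγ _ (Set.mem_insert _ _)).trans hx1, htq.trans hx2⟩, ?_⟩
    intro k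
    refine hD1 k ?_ (hy1 k)
    exact Or.inr ⟨(hγ _ (Set.mem_insert_of_mem _ ⟨k, rfl⟩)).trans hx1, (hy2 k).trans hx2⟩

end Pool.Agent.Helper32.BT
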