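import Pool.Agent.Helper32.BT.Rec
set_option autoImplicit false

/-! Properties of the functions attached to the nodes of a Baire tree. -/

namespace Pool.Agent.Helper32.BT

open Pool.Agent.Helper55.NK

/-- The support of a function. -/
def supp {Ω : Type} (u : Ω → ℝ) : Set Ω := {v | u v ≠ 0}

theorem supp_add {Ω : Type} (u u2 : Ω → ℝ) (h : (supp u).Countable) (h2 : (supp u2).Countable) :
    (supp (u + u2)).Countable := by
  refine (h.union h2).mono ?_
  intro v hv
  by_contra hcon
  simp only [supp, Set.mem_union, Set.mem_ofPred_eq, not_or, not_not] at hcon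
  apply hv
  simp only [Pi.add_apply, hcon.1, hcon.2, add_zero]

theorem supp_neg {Ω : Type} (u : Ω → ℝ) (h : (supp u).Countable) : (supp (-u)).Countable := by
  refine h.mono ?_
  intro v hv hu
  apply hv
  simp only [Pi.neg_apply, hu, neg_zero]

theorem supp_zsmul {Ω : Type} (n : ℤ) (u : Ω → ℝ) (h : (supp u).Countable) :
    (supp (n • u)).Countable := by
  refine h.mono ?_
  intro v hv hu
  apply hv
  simp only [Pi.smul_apply, hu, smul_zero]

theorem supp_gv {Ω T : Type} [LinearOrder Ω] (hΩ : IsOmega1 Ω) (y : T → Ω → ℝ)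
    (hy : ∀ t, (supp (y t)).Countable) (i : T ⊕ Ω ⊕ Ω) : (supp (gv y i)).Countable := by
  rcases i with s | v | v
  · exact hy s
  · refine (Set.countable_singleton v).mono ?_
    intro w hw
    by_contra hne
    exact hw (if_neg hne)
  · refine (hΩ.iio v).mono ?_
    intro w hw
    by_contra hne
    exact hw (if_neg hne)

theorem supp_wv {Ω T : Type} [LinearOrder Ω] (hΩ : IsOmega1 Ω) (y : T → Ω → ℝ)
    (hy : ∀ t, (supp (y t)).Countable) (w : (T ⊕ Ω ⊕ Ω) →₀ ℤ) : (supp (wv y w)).Countable := by
  classical
  unfold wv Finsupp.sum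
  induction w.support using Finset.induction_on with
  | empty =>
    refine (Set.countable_empty).mono ?_
    intro v hv
    exact hv (by simp only [Finset.sum_empty, Pi.zero_apply])
  | insert a s ha ih =>
    rw [Finset.sum_insert ha]
    exact supp_add _ _ (supp_zsmul _ _ (supp_gv hΩ y hy a)) ih

theorem supp_zero {Ω : Type} : (supp (0 : Ω → ℝ)).Countable := by
  refine (Set.countable_empty).mono ?_
  intro v hv
  exact hv rfl

theorem props {Ω Λ T : Type} [LinearOrder Ω] [LinearOrder Λ] (hΩ : IsOmega1 Ω) [PartialOrder T]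
    (hT : BaireTree T) (hΛ : IsStage Λ T) (σ : T → Λ) (hmono : Monotone σ) (r : T → ((T ⊕ Ω ⊕ Ω) →₀ ℤ)) (y : T → Ω → ℝ)
    (h1 : ∀ a t, a ⋖ t → y t = open Classical in
        if (∀ v, |wv (fun s => if σ s < σ t then y s else 0) (r t) v| ≤ 1) ∧
          (∀ v, wv (fun s => if σ s < σ t then y s else 0) (r t) v ≠ 0 → y a v = 0)
        then y a + wv (fun s => if σ s < σ t then y s else 0) (r t) else y a)
    (h2 : ∀ t, (¬ ∃ a, a ⋖ t) → ∀ v, (∃ s, s < t ∧ y s v ≠ 0 ∧ y t v = y s v) ∨
        ((∀ s, s < t → y s v = 0) ∧ y t v = 0)) (t : T) :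
    (∀ v, |y t v| ≤ 1) ∧ (∀ s, s ≤ t → ∀ v, y s v ≠ 0 → y t v = y s v) ∧ (supp (y t)).Countable := by
  classical
  induction t using (R_wf hT hΛ σ).induction with
  | _ t ih =>
  have hR : ∀ s, s < t → R σ s t := by
    intro s hst
    rcases (hmono hst.le).lt_or_eq with h | h
    · exact Or.inl h
    · exact Or.inr ⟨h, hst⟩
  by_cases hex : ∃ a, a ⋖ t
  · obtain ⟨a, hat⟩ := hex
    obtain ⟨ha1, ha2, ha3⟩ := ih a (hR a hat.lt)
    have hg : (supp (wv (fun s => if σ s < σ t then y s else 0) (r t))).Countable := by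
      apply supp_wv hΩ
      intro s
      by_cases h : σ s < σ t
      · simp only [h, if_true]
        exact (ih s (Or.inl h)).2.2
      · simp only [h, if_false]
        exact supp_zero
    have hyt := h1 a t hat
    set g := wv (fun s => if σ s < σ t then y s else 0) (r t) with hgdef
    by_cases hc : (∀ v, |g v| ≤ 1) ∧ (∀ v, g v ≠ 0 → y a v = 0)
    · rw [if_pos hc] at hyt
      refine ⟨?_, ?_, ?_⟩
      · intro v
        rw [hyt, Pi.add_apply]
        by_cases hv : g v = 0
        · rw [hv, add_zero]; exact ha1 v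
        · rw [hc.2 v hv, zero_add]; exact hc.1 v
      · intro s hst v hsv
        rcases hst.eq_or_lt with h | h
        · rw [h]
        · have h3 := ha2 s (le_of_lt_of_covBy hT hat h) v hsv
          have h4 : g v = 0 := by
            by_contra hne
            have h5 := hc.2 v hne
            rw [h5] at h3
            exact hsv h3.symm
          rw [hyt, Pi.add_apply, h4, add_zero, h3]
      · rw [hyt]
        exact supp_add _ _ ha3 hg
    · rw [if_neg hc] at hyt
      refine ⟨?_, ?_, ?_⟩
      · rw [hyt]; exact ha1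
      · intro s hst v hsv
        rcases hst.eq_or_lt with h | h
        · rw [h]
        · rw [hyt]
          exact ha2 s (le_of_lt_of_covBy hT hat h) v hsv
      · rw [hyt]; exact ha3
  · have h3 := h2 t hex
    refine ⟨?_, ?_, ?_⟩
    · intro v
      rcases h3 v with ⟨s, hs, _, hv⟩ | ⟨_, hv⟩
      · rw [hv]; exact (ih s (hR s hs)).1 v
      · rw [hv, abs_zero]; exact zero_le_one
    · intro s hst v hsv
      rcases hst.eq_or_lt with h | h
      · rw [h]
      · rcases h3 v with ⟨u, hu, hune, hv⟩ | ⟨hz, _⟩
        · rw [hv]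
          rcases hT.chain t s u h.le hu.le with h4 | h4
          · exact (ih u (hR u hu)).2.1 s h4 v hsv
          · exact ((ih s (hR s h)).2.1 u h4 v hune).symm
        · exact absurd (hz s h) hsv
    · have h4 : supp (y t) ⊆ ⋃ s ∈ {s | s ≤ t}, (if s < t then supp (y s) else ∅) := by
        intro v hv
        rcases h3 v with ⟨u, hu, hune, _⟩ | ⟨_, hz⟩
        · refine Set.mem_iUnion₂.mpr ⟨u, hu.le, ?_⟩
          rw [if_pos hu]
          exact hune
        · exact absurd hz hv
      refine Set.Countable.mono h4 ((hT.below t).biUnion ?_)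
      intro s _
      by_cases h : s < t
      · rw [if_pos h]
        exact (ih s (hR s h)).2.2
      · rw [if_neg h]
        exact Set.countable_empty

end Pool.Agent.Helper32.BT
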