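import Pool.Agent.Helper32.BT.Sig
set_option autoImplicit false

/-! The recursion along a Baire tree. -/

namespace Pool.Agent.Helper32.BT

open Pool.Agent.Helper55.NK

/-- The order of the recursion. -/
def R {Λ T : Type} [LinearOrder Λ] [PartialOrder T] (σ : T → Λ) (s t : T) : Prop :=
  σ s < σ t ∨ (σ s = σ t ∧ s < t)

theorem R_wf {Λ T : Type} [LinearOrder Λ] [PartialOrder T] (hT : BaireTree T) (hΛ : IsStage Λ T)
    (σ : T → Λ) : WellFounded (R σ) := by
  have h := InvImage.wf (fun t : T => (σ t, t)) (WellFounded.prod_lex hΛ.wf hT.wf)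
  refine Subrelation.wf ?_ h
  intro s t hst
  show Prod.Lex _ _ (σ s, s) (σ t, t)
  rw [Prod.lex_def]
  exact hst

/-- Value of an index, given the values at nodes. -/
noncomputable def gv {Ω T : Type} [LinearOrder Ω] (y : T → Ω → ℝ) : T ⊕ Ω ⊕ Ω → Ω → ℝ
  | Sum.inl s => y s
  | Sum.inr (Sum.inl v) => fun w => open Classical in if w = v then (1 : ℝ) else 0
  | Sum.inr (Sum.inr v) => fun w => open Classical in if w < v then (1 : ℝ) else 0

/-- Value of a word. -/
noncomputable def wv {Ω T : Type} [LinearOrder Ω] (y : T → Ω → ℝ) (w : (T ⊕ Ω ⊕ Ω) →₀ ℤ) : Ω → ℝ :=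
  w.sum fun i n => n • gv y i

open Classical in
/-- One step: the new value. -/
noncomputable def step {Ω Λ T : Type} [LinearOrder Ω] [LinearOrder Λ] [PartialOrder T]
    (r : T → ((T ⊕ Ω ⊕ Ω) →₀ ℤ)) (σ : T → Λ) (t : T) (y : T → Ω → ℝ) : Ω → ℝ :=
  if h : ∃ a, a ⋖ t then
    (if (∀ v, |wv (fun s => if σ s < σ t then y s else 0) (r t) v| ≤ 1) ∧
        (∀ v, wv (fun s => if σ s < σ t then y s else 0) (r t) v ≠ 0 → y h.choose v = 0)
      then y h.choose + wv (fun s => if σ s < σ t then y s else 0) (r t) else y h.choose)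
  else fun v => if h : ∃ s, s < t ∧ y s v ≠ 0 then y h.choose v else 0

open Classical in
theorem exists_fix {Ω Λ T : Type} [LinearOrder Ω] [LinearOrder Λ] [PartialOrder T] (hT : BaireTree T)
    (hΛ : IsStage Λ T) (σ : T → Λ) (r : T → ((T ⊕ Ω ⊕ Ω) →₀ ℤ)) :
    ∃ y : T → Ω → ℝ, ∀ t, y t = step r σ t (fun s => if R σ s t then y s else 0) := by
  refine ⟨(R_wf hT hΛ σ).fix fun t ih => step r σ t (fun s => if h : R σ s t then ih s h else 0), ?_⟩
  intro t
  rw [WellFounded.fix_eq]
  congr 1

open Classical in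
/-- The values: equations at successors and at limits. -/
theorem exists_y {Ω Λ T : Type} [LinearOrder Ω] [LinearOrder Λ] [PartialOrder T] (hT : BaireTree T)
    (hΛ : IsStage Λ T) (σ : T → Λ) (hmono : Monotone σ) (r : T → ((T ⊕ Ω ⊕ Ω) →₀ ℤ)) :
    ∃ y : T → Ω → ℝ,
      (∀ a t, a ⋖ t → y t =
        if (∀ v, |wv (fun s => if σ s < σ t then y s else 0) (r t) v| ≤ 1) ∧
          (∀ v, wv (fun s => if σ s < σ t then y s else 0) (r t) v ≠ 0 → y a v = 0)
        then y a + wv (fun s => if σ s < σ t then y s else 0) (r t) else y a) ∧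
      (∀ t, (¬ ∃ a, a ⋖ t) → ∀ v, (∃ s, s < t ∧ y s v ≠ 0 ∧ y t v = y s v) ∨
        ((∀ s, s < t → y s v = 0) ∧ y t v = 0)) := by
  obtain ⟨y, hy⟩ := exists_fix hT hΛ σ r
  have hR : ∀ s t, s < t → R σ s t := by
    intro s t hst
    rcases (hmono hst.le).lt_or_eq with h | h
    · exact Or.inl h
    · exact Or.inr ⟨h, hst⟩
  refine ⟨y, ?_, ?_⟩
  · intro a t hat
    have hex : ∃ a, a ⋖ t := ⟨a, hat⟩
    have hch : hex.choose = a := pred_unique hT hex.choose_spec hat
    have h1 : (fun s => if σ s < σ t then (if R σ s t then y s else 0) else (0 : Ω → ℝ)) =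
        fun s => if σ s < σ t then y s else 0 := by
      funext s
      by_cases h : σ s < σ t
      · have h2 : R σ s t := Or.inl h
        simp only [h, h2, if_true]
      · simp only [h, if_false]
    have h3 : R σ a t := hR a t hat.lt
    rw [hy t]
    unfold step
    rw [dif_pos hex]
    simp only [h1, hch]
    simp only [h3, if_true]
  · intro t ht v
    have h0 := hy t
    unfold step at h0
    rw [dif_neg ht] at h0
    have h1 := congrFun h0 v
    by_cases h : ∃ s, s < t ∧ (if R σ s t then y s else 0) v ≠ 0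
    · left
      simp only [h, dite_true] at h1
      have h2 := h.choose_spec
      have h3 : R σ h.choose t := hR _ _ h2.1
      rw [if_pos h3] at h1
      have h4 := h2.2
      rw [if_pos h3] at h4
      exact ⟨h.choose, h2.1, h4, h1⟩
    · right
      simp only [h, dite_false] at h1
      refine ⟨?_, h1⟩
      intro s hs
      by_contra hne
      exact h ⟨s, hs, by rw [if_pos (hR s t hs)]; exact hne⟩

end Pool.Agent.Helper32.BT
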