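import Pool.Agent.Helper32.BT.Defs
set_option autoImplicit false

namespace Pool.Agent.Helper32.BT

open Pool.Agent.Helper55.NK Cardinal

theorem pred_unique {T : Type} [PartialOrder T] (hT : BaireTree T) {a b t : T} (ha : a ⋖ t)
    (hb : b ⋖ t) : a = b := by
  rcases hT.chain t a b ha.le hb.le with h | h
  · rcases h.eq_or_lt with h | h
    · exact h
    · exact absurd hb.lt (ha.2 h)
  · rcases h.eq_or_lt with h | h
    · exact h.symm
    · exact absurd ha.lt (hb.2 h)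

theorem le_of_lt_of_covBy {T : Type} [PartialOrder T] (hT : BaireTree T) {a s t : T} (ha : a ⋖ t)
    (hs : s < t) : s ≤ a := by
  rcases hT.chain t a s ha.le hs.le with h | h
  · rcases h.eq_or_lt with h | h
    · exact h.symm.le
    · exact absurd hs (ha.2 h)
  · exact h

/-- A copy of the initial ordinal of `#T`, with countable subsets bounded. -/
structure IsStage (Λ T : Type) [LinearOrder Λ] : Prop where
  wf : WellFounded ((· < ·) : Λ → Λ → Prop)
  bdd : ∀ A : Set Λ, A.Countable → ∃ b, ∀ a ∈ A, a < b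
  iic : ∀ a : Λ, Cardinal.mk (Set.Iic a) < Cardinal.mk T
  card : Cardinal.mk Λ = Cardinal.mk T

/-- The cardinality of a Baire tree has uncountable cofinality. -/
theorem exists_stage {T : Type} [PartialOrder T] (hT : BaireTree T) :
    ∃ (Λ : Type) (_ : LinearOrder Λ), IsStage Λ T := by
  classical
  have hinf : Cardinal.aleph0 ≤ Cardinal.mk T := (Cardinal.aleph0_le_aleph 1).trans hT.unc
  have hiic : ∀ a : (Cardinal.mk T).ord.ToType, Cardinal.mk (Set.Iic a) < Cardinal.mk T := by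
    intro a
    have h1 : Cardinal.mk (Set.Iio a) < Cardinal.mk T := Cardinal.mk_Iio_toType_ord_lt a
    have h2 : Set.Iic a = insert a (Set.Iio a) := by
      ext x
      simp only [Set.mem_Iic, Set.mem_insert_iff, Set.mem_Iio]
      exact le_iff_eq_or_lt
    rw [h2]
    refine lt_of_le_of_lt (Cardinal.mk_insert_le) ?_
    exact Cardinal.add_lt_of_lt hinf h1 (Cardinal.one_lt_aleph0.trans_le hinf)
  have hcard : Cardinal.mk (Cardinal.mk T).ord.ToType = Cardinal.mk T := by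
    exact Cardinal.mk_ord_toType _
  refine ⟨(Cardinal.mk T).ord.ToType, inferInstance, ⟨wellFounded_lt, ?_, hiic, hcard⟩⟩
  intro A hA
  by_contra hcon
  push Not at hcon
  have hinj : Nonempty (T ↪ (Cardinal.mk T).ord.ToType) := by
    rw [← Cardinal.le_def, hcard]
  obtain ⟨f⟩ := hinj
  have hTne : Nonempty T := by
    rw [← Cardinal.mk_ne_zero_iff]
    intro h0
    rw [h0] at hinf
    exact absurd Cardinal.aleph0_pos (not_lt.mpr hinf)
  obtain ⟨t0⟩ := hTne
  have hAne : A.Nonempty := by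
    obtain ⟨a, ha, _⟩ := hcon (f t0)
    exact ⟨a, ha⟩
  obtain ⟨g, hg⟩ := hA.exists_eq_range hAne
  have hbaire := hT.baire (fun n => {t | ∀ s, t ≤ s → ¬ f s ≤ g n})
    (by
      intro n a b hab ha s hbs
      exact ha s (hab.trans hbs))
    (by
      intro n t
      by_contra hno
      have hch : ∀ s : {s | t ⋖ s}, ∃ u, (s : T) ≤ u ∧ f u ≤ g n := by
        intro s
        by_contra hno2
        push Not at hno2
        exact hno ⟨s, fun u hu => not_le.mpr (hno2 u hu), s.2.le⟩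
      choose u hu1 hu2 using hch
      have hinj2 : Function.Injective (fun s : {s | t ⋖ s} => (⟨f (u s), hu2 s⟩ : Set.Iic (g n))) := by
        intro s s' hss
        have h1 : u s = u s' := f.injective (congrArg Subtype.val hss)
        have h2 : (s : T) ≤ u s := hu1 s
        have h3 : (s' : T) ≤ u s := h1 ▸ hu1 s'
        apply Subtype.ext
        rcases hT.chain _ _ _ h2 h3 with h | h
        · rcases h.eq_or_lt with h | h
          · exact h
          · exact absurd h (s'.2.2 s.2.lt)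
        · rcases h.eq_or_lt with h | h
          · exact h.symm
          · exact absurd h (s.2.2 s'.2.lt)
      have h4 := Cardinal.mk_le_of_injective hinj2
      exact absurd ((hT.succ t).trans h4) (not_le.mpr (hiic (g n)))) t0
  obtain ⟨s, -, hs⟩ := hbaire
  obtain ⟨a, ha, hab⟩ := hcon (f s)
  rw [hg] at ha
  obtain ⟨n, rfl⟩ := ha
  exact hs n s le_rfl hab

theorem exists_sigma {Λ T : Type} [LinearOrder Λ] [PartialOrder T] (hT : BaireTree T)
    (hΛ : IsStage Λ T) :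
    ∃ σ : T → Λ, Monotone σ ∧ ∀ γ, Cardinal.mk {t | σ t ≤ γ} < Cardinal.mk T := by
  classical
  have hinj : Nonempty (T ↪ Λ) := by
    rw [← Cardinal.le_def, hΛ.card]
  obtain ⟨f⟩ := hinj
  have hne : ∀ t : T, {b : Λ | ∀ s ≤ t, f s < b}.Nonempty := by
    intro t
    obtain ⟨b, hb⟩ := hΛ.bdd (f '' {s | s ≤ t}) ((hT.below t).image f)
    exact ⟨b, fun s hs => hb _ ⟨s, hs, rfl⟩⟩
  refine ⟨fun t => hΛ.wf.min _ (hne t), ?_, ?_⟩
  · intro s t hst
    have h1 : ∀ u ≤ s, f u < hΛ.wf.min _ (hne t) := fun u hu =>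
      hΛ.wf.min_mem _ (hne t) u (hu.trans hst)
    exact not_lt.mp (hΛ.wf.not_lt_min {b : Λ | ∀ u ≤ s, f u < b} h1)
  · intro γ
    refine lt_of_le_of_lt ?_ (hΛ.iic γ)
    refine Cardinal.mk_le_of_injective (f := fun t : {t | hΛ.wf.min _ (hne t) ≤ γ} =>
      (⟨f t, (lt_of_lt_of_le (hΛ.wf.min_mem _ (hne t) t le_rfl) t.2).le⟩ : Set.Iic γ)) ?_
    intro s t hst
    exact Subtype.ext (f.injective (congrArg Subtype.val hst))

theorem mk_index_le {Ω T : Type} [LinearOrder Ω] (hΩ : IsOmega1 Ω) [PartialOrder T]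
    (hT : BaireTree T) : Cardinal.mk (T ⊕ Ω ⊕ Ω) ≤ Cardinal.mk T := by
  have hinf : Cardinal.aleph0 ≤ Cardinal.mk T := (Cardinal.aleph0_le_aleph 1).trans hT.unc
  have hΩT : Cardinal.mk Ω ≤ Cardinal.mk T := hΩ.card.le.trans hT.unc
  rw [Cardinal.mk_sum, Cardinal.mk_sum]
  simp only [Cardinal.lift_id]
  refine Cardinal.add_le_of_le hinf le_rfl ?_
  exact Cardinal.add_le_of_le hinf hΩT hΩT

theorem exists_req {Ω Λ T : Type} [LinearOrder Ω] [LinearOrder Λ] (hΩ : IsOmega1 Ω) [PartialOrder T]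
    (hT : BaireTree T) (hΛ : IsStage Λ T)
    (σ : T → Λ) (hσ : ∀ γ, Cardinal.mk {t | σ t ≤ γ} < Cardinal.mk T) :
    ∃ r : T → ((T ⊕ Ω ⊕ Ω) →₀ ℤ), ∀ (t : T) (w : (T ⊕ Ω ⊕ Ω) →₀ ℤ),
      ∃ s, t ⋖ s ∧ r s = w ∧ ∀ a : T, Sum.inl a ∈ w.support → σ a < σ s := by
  classical
  have hinf : Cardinal.aleph0 ≤ Cardinal.mk T := (Cardinal.aleph0_le_aleph 1).trans hT.unc
  have haI := mk_index_le hΩ hT
  have hΩinf : Infinite Ω := by
    rw [Cardinal.infinite_iff, hΩ.card]
    exact Cardinal.aleph0_le_aleph 1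
  have hΛne : Nonempty Λ := by
    rw [← Cardinal.mk_ne_zero_iff, hΛ.card]
    intro h0
    rw [h0] at hinf
    exact absurd Cardinal.aleph0_pos (not_lt.mpr hinf)
  have hW : Cardinal.mk ((T ⊕ Ω ⊕ Ω) →₀ ℤ) ≤ Cardinal.mk T := by
    rw [Cardinal.mk_finsupp_of_infinite]
    refine max_le haI ?_
    rw [Cardinal.mk_int]
    exact hinf
  have hWΩ : Cardinal.mk (((T ⊕ Ω ⊕ Ω) →₀ ℤ) × Λ) ≤ Cardinal.mk T := by
    rw [Cardinal.mk_prod]
    simp only [Cardinal.lift_id]
    exact Cardinal.mul_le_of_le hinf hW hΛ.card.le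
  have hφ : ∀ t : T, ∃ φ : T → ((T ⊕ Ω ⊕ Ω) →₀ ℤ) × Λ, ∀ p, ∃ s, t ⋖ s ∧ φ s = p := by
    intro t
    obtain ⟨e⟩ := Cardinal.le_def _ _ |>.mp (hWΩ.trans (hT.succ t))
    refine ⟨fun s => if h : ∃ p, (e p : T) = s then h.choose else (0, hΛne.some), ?_⟩
    intro p
    refine ⟨(e p : T), (e p).2, ?_⟩
    have h : ∃ q, (e q : T) = (e p : T) := ⟨p, rfl⟩
    simp only [h, dite_true]
    exact e.injective (Subtype.ext h.choose_spec)
  choose φ hφ using hφ
  refine ⟨fun s => if h : ∃ t, t ⋖ s then (φ h.choose s).1 else 0, ?_⟩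
  intro t w
  obtain ⟨γ, hγ⟩ := hΛ.bdd (σ '' {a : T | Sum.inl a ∈ w.support})
    (Set.Countable.image (Set.Finite.countable
      ((w.support.finite_toSet).preimage (Sum.inl_injective.injOn))) σ)
  have hbig : Cardinal.mk T ≤ Cardinal.mk {s | t ⋖ s ∧ (φ t s).1 = w} := by
    rw [← hΛ.card]
    refine Cardinal.mk_le_of_surjective
      (f := fun s : {s | t ⋖ s ∧ (φ t s).1 = w} => (φ t s).2) ?_
    intro v
    obtain ⟨s, hs, hsp⟩ := hφ t (w, v)
    exact ⟨⟨s, hs, by rw [hsp]⟩, by simp only [hsp]⟩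
  have hex : ∃ s, (t ⋖ s ∧ (φ t s).1 = w) ∧ ¬ σ s ≤ γ := by
    by_contra hcon
    push Not at hcon
    have h1 : Cardinal.mk {s | t ⋖ s ∧ (φ t s).1 = w} ≤ Cardinal.mk {t | σ t ≤ γ} :=
      Cardinal.mk_le_mk_of_subset fun s hs => hcon s hs
    exact absurd (hbig.trans h1) (not_le.mpr (hσ γ))
  obtain ⟨s, ⟨hts, hsw⟩, hsγ⟩ := hex
  refine ⟨s, hts, ?_, ?_⟩
  · have h : ∃ t, t ⋖ s := ⟨t, hts⟩
    simp only [h, dite_true]
    rw [pred_unique hT h.choose_spec hts, hsw]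
  · intro a ha
    exact (hγ _ ⟨a, ha, rfl⟩).trans (not_le.mp hsγ)

end Pool.Agent.Helper32.BT
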