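import Pool.Agent.Helper32.BT.Main
import Pool.Agent.Helper55.NK.Om
import Pool.Agent.Helper55.NK.Ban
set_option autoImplicit false

/-! Baire trees give witnesses. -/

namespace Pool.Agent.Helper32.BT

open Pool.Agent.Helper55.NK

theorem witness_of_tree (T : Type) [PartialOrder T] (hT : BaireTree T) : Witness (Cardinal.mk T) := by
  obtain ⟨Ω, _, hΩ⟩ := exists_omega1
  obtain ⟨Y, hY, hcard⟩ := exists_rich_of_tree hΩ T hT
  exact banach_part hΩ Y hY T hT.unc hcard

end Pool.Agent.Helper32.BT
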